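import Pool.Agent.H17.PR.Asm

/-!
# The Bodirsky–Pinsker conjecture and `k`-homogeneous oriented graphs

For every number `k` and every template `𝔸` in the scope of the conjecture there is an infinite
oriented graph `(G; E)`, `k`-homogeneous and without algebraicity, in the scope of the conjecture
such that
* `(G; E)` pp-constructs `K₃` if and only if `𝔸` does;
* `CSP(𝔸)` and `CSP(G; E)` are many-one reducible to each other in polynomial time.
Hence, for every `k`, the conjecture holds for all templates if and only if it holds for such
oriented graphs.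
The definitions are in `Pool.Agent.H68.BG.Conj`.
-/

namespace Pool.Agent.Results.MP_6ab439_lc.OrientedGraphs

open Pool.Agent.H68.BP

theorem result (k : ℕ) :
    (∀ (σ : Sig) (D : Type) (𝔸 : Str σ D), InScope 𝔸 →
      ∃ (G : Type) (E : G → G → Prop), OrientedTemplate k E ∧
        (PPConstructsK3 (graph E) ↔ PPConstructsK3 𝔸) ∧
        N793a5b8e.ManyOneReducible (CSP 𝔸) (CSP (graph E)) ∧
        N793a5b8e.ManyOneReducible (CSP (graph E)) (CSP 𝔸)) ∧
    (BodirskyPinsker ↔ BodirskyPinskerOriented k) :=
  ⟨fun _ _ _ h => Pool.Agent.H17.PR.exists_horiented k h, bp_oriented k⟩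

end Pool.Agent.Results.MP_6ab439_lc.OrientedGraphs
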